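import Pool.Agent.Lib.MP_64bee1_co.Tail

/-!
Surgery: remove a short segment of positions, shift the affected columns by one row and append
the largest values.  This bounds the growth of the cumulative counts from above.
-/

namespace Pool.Agent.Lib.MP_64bee1_co.TL

open Finset

variable {N : ℕ}

/-- Pairs of positions at distance congruent to one modulo `k`. -/
def GA (k : ℕ) (i j : Fin N) : Prop := i < j ∧ ((j : ℕ) - (i : ℕ)) % k = 1

instance (k : ℕ) : DecidableRel (GA (N := N) k) := fun i j => by unfold GA; infer_instance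

/-- Number of permutations with at most `x` inverted edges. -/
def cum (A : Fin N → Fin N → Prop) [DecidableRel A] (x : ℕ) : ℕ :=
  #{w : Equiv.Perm (Fin N) | iv A w ≤ x}

theorem eq_of_mod_eq {k x y : ℕ} (h : x % k = y % k) (h1 : x ≤ y) (h2 : y < x + k) : x = y := by
  have h3 : k ∣ y - x := (Nat.modEq_iff_dvd' h1).1 h
  have := Nat.eq_zero_of_dvd_of_lt h3 (by omega)
  omega

/-- The position map of the surgery, on natural numbers. -/
def sh (N k l a i : ℕ) : ℕ :=
  if a ≤ i ∧ (i - a) % k < l then (if i + k < N then i + k else a + (i - a) % k) else i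

theorem sh_lt {k l a i : ℕ} (ha : a + l ≤ N) (hi : i < N) : sh N k l a i < N := by
  unfold sh
  split_ifs <;> omega

theorem sh_inj {k l a i j : ℕ} (hl : l ≤ k) (hi : i < N) (hj : j < N)
    (h : sh N k l a i = sh N k l a j) : i = j := by
  have e1 : ∀ x, a ≤ x → (x + k - a) % k = (x - a) % k := fun x hx => by
    rw [show x + k - a = x - a + k by omega, Nat.add_mod_right]
  have e2 : ∀ x, (a + (x - a) % k - a) % k = (x - a) % k := fun x => by
    rw [Nat.add_sub_cancel_left, Nat.mod_mod]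
  unfold sh at h
  split_ifs at h with h1 h2 h3 h4 h5 h6 h7 h8
  · omega
  · omega
  · exact absurd ⟨by omega, by rw [← h, e1 i h1.1]; exact h1.2⟩ h3
  · omega
  · have h' : (i - a) % k = (j - a) % k := by omega
    rcases le_total i j with q | q
    · have := eq_of_mod_eq h' (by omega) (by omega)
      omega
    · have := eq_of_mod_eq h'.symm (by omega) (by omega)
      omega
  · exact absurd ⟨by omega, by rw [← h, e2 i]; exact h1.2⟩ h5
  · exact absurd ⟨by omega, by rw [h, e1 j h7.1]; exact h7.2⟩ h1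
  · exact absurd ⟨by omega, by rw [h, e2 j]; exact h7.2⟩ h1
  · exact h

/-- Inverted edges whose left end lies in the segment. -/
def touch (k l a : ℕ) (w : Equiv.Perm (Fin N)) : ℕ :=
  #{p : Fin N × Fin N | (GA k p.1 p.2 ∧ w p.2 < w p.1) ∧ a ≤ (p.1 : ℕ) ∧ (p.1 : ℕ) < a + l}

theorem card_bad {k l a : ℕ} :
    #{p : Fin N × Fin N | a ≤ (p.1 : ℕ) ∧ ((p.1 : ℕ) - a) % k + 1 = l ∧
      (p.2 : ℕ) = p.1 + 1} ≤ N / k + 1 := by
  rw [← card_range (N / k + 1)]
  refine card_le_card_of_injOn (fun p => ((p.1 : ℕ) - a) / k) ?_ ?_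
  · intro p _
    simp only [coe_range, Set.mem_Iio]
    exact Nat.lt_succ_of_le (Nat.div_le_div_right (by omega))
  · intro p hp q hq h
    simp only [coe_filter, mem_univ, true_and, Set.mem_ofPred_eq] at hp hq h
    have h1 := Nat.div_add_mod ((p.1 : ℕ) - a) k
    have h2 := Nat.div_add_mod ((q.1 : ℕ) - a) k
    rw [h] at h1
    refine Prod.ext (Fin.ext ?_) (Fin.ext ?_) <;> omega

theorem key {k l a : ℕ} (hk : 3 ≤ k) (hl : l ≤ k) (ha : a + l ≤ N) (g : Fin l → Fin N) :
    ∃ Φ : Equiv.Perm (Fin N) → Equiv.Perm (Fin N), Function.Injective Φ ∧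
      ∀ w : Equiv.Perm (Fin N), (∀ s : Fin l, w ⟨a + s, by omega⟩ = g s) →
        iv (GA k) (Φ w) + touch k l a w ≤ iv (GA k) w + (N / k + 1) := by
  classical
  let F : Fin N → ℤ := fun t => if h : ∃ s, g s = t then (N : ℤ) + (h.choose : ℕ) else (t : ℕ)
  have hF : Function.Injective F := by
    intro t u h
    simp only [F] at h
    split_ifs at h with h1 h2 h3
    · have : h1.choose = h2.choose := Fin.ext (by omega)
      rw [← h1.choose_spec, ← h2.choose_spec, this]
    · omega
    · omega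
    · exact Fin.ext (by omega)
  obtain ⟨ρ, hρ⟩ := exists_rank F hF
  let t0 : Fin N → Fin N := fun i => ⟨sh N k l a i, sh_lt ha i.2⟩
  have ht0 : Function.Injective t0 := fun i j h =>
    Fin.ext (sh_inj hl i.2 j.2 (congrArg Fin.val h))
  let τ : Equiv.Perm (Fin N) := Equiv.ofBijective t0 (Finite.injective_iff_bijective.1 ht0)
  have hτ : ∀ i, ((τ i : Fin N) : ℕ) = sh N k l a i := fun i => rfl
  refine ⟨fun w => ρ * w * τ, fun w w' h => ?_, fun w hw => ?_⟩
  · exact mul_left_cancel (mul_right_cancel h)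
  have hg : Function.Injective g := by
    intro s s' h
    rw [← hw, ← hw] at h
    have := congrArg Fin.val (w.injective h)
    exact Fin.ext (by simpa using this)
  have Fin' : ∀ u : Fin N, a ≤ (u : ℕ) → (u : ℕ) < a + l → F (w u) = N + ((u : ℕ) - a : ℕ) := by
    intro u h1 h2
    have e : g ⟨(u : ℕ) - a, by omega⟩ = w u := by
      rw [← hw]
      congr 1
      exact Fin.ext (by simp; omega)
    have h : ∃ s, g s = w u := ⟨_, e⟩
    have : h.choose = ⟨(u : ℕ) - a, by omega⟩ := hg (by rw [h.choose_spec, e])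
    simp only [F, dif_pos h, this]
  have Fout : ∀ u : Fin N, ¬ (a ≤ (u : ℕ) ∧ (u : ℕ) < a + l) → F (w u) = (w u : ℕ) := by
    intro u h1
    have h : ¬ ∃ s, g s = w u := by
      rintro ⟨s, hs⟩
      rw [← hw] at hs
      have := congrArg Fin.val (w.injective hs)
      simp only at this
      omega
    simp only [F, dif_neg h]
  set I := univ.filter fun p : Fin N × Fin N => GA k p.1 p.2 ∧ w p.2 < w p.1 with hI
  set B := univ.filter fun p : Fin N × Fin N => a ≤ (p.1 : ℕ) ∧ ((p.1 : ℕ) - a) % k + 1 = l ∧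
      (p.2 : ℕ) = p.1 + 1 with hB
  have hBc : #B ≤ N / k + 1 := card_bad
  have hsplit := card_filter_add_card_filter_not (s := I)
    (fun p : Fin N × Fin N => a ≤ (p.1 : ℕ) ∧ (p.1 : ℕ) < a + l)
  have ht : touch k l a w = #(I.filter fun p => a ≤ (p.1 : ℕ) ∧ (p.1 : ℕ) < a + l) := by
    rw [hI, filter_filter]
    rfl
  set I' := univ.filter fun p : Fin N × Fin N =>
    GA k p.1 p.2 ∧ (ρ * w * τ) p.2 < (ρ * w * τ) p.1 with hI'
  have hmain : #(I' \ B) ≤ #(I.filter fun p => ¬ (a ≤ (p.1 : ℕ) ∧ (p.1 : ℕ) < a + l)) := by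
    refine card_le_card_of_injOn (fun p => (τ p.1, τ p.2)) ?_ ?_
    swap
    · intro p _ q _ h
      simp only [Prod.mk.injEq] at h
      exact Prod.ext (τ.injective h.1) (τ.injective h.2)
    rintro ⟨i, j⟩ hp
    simp only [coe_sdiff, hI', hB, coe_filter, mem_univ, true_and, Set.mem_sdiff,
      Set.mem_ofPred_eq, Equiv.Perm.mul_apply, hρ] at hp
    obtain ⟨⟨⟨hij, hm⟩, hv⟩, hb⟩ := hp
    simp only [hI, coe_filter, mem_filter, mem_univ, true_and, Set.mem_ofPred_eq]
    have hij' : (i : ℕ) < j := hij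
    have hi := i.2
    have hj := j.2
    have gap : (j : ℕ) = i + 1 ∨ (i : ℕ) + k < j := by
      by_cases c : (j : ℕ) - i < k
      · rw [Nat.mod_eq_of_lt c] at hm
        omega
      · by_cases c' : (j : ℕ) - i = k
        · rw [c', Nat.mod_self] at hm
          omega
        · omega
    have step : a ≤ (i : ℕ) → ((i : ℕ) - a) % k < l → (j : ℕ) = i + 1 →
        ((j : ℕ) - a) % k = ((i : ℕ) - a) % k + 1 ∧ ((j : ℕ) - a) % k < l := by
      intro h1 h2 h3
      have h4 : ((i : ℕ) - a) % k + 1 < l := by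
        by_contra h5
        exact hb ⟨h1, by omega, h3⟩
      have h5 : ((j : ℕ) - a) % k = ((i : ℕ) - a) % k + 1 := by
        rw [show (j : ℕ) - a = (i : ℕ) - a + 1 by omega, Nat.add_mod,
          Nat.mod_eq_of_lt (show 1 < k by omega), Nat.mod_eq_of_lt (by omega)]
      omega
    have small : ∀ x : ℕ, a ≤ x → x < a + l → (x - a) % k < l := fun x h1 h2 => by
      rw [Nat.mod_eq_of_lt (by omega)]
      omega
    have wlt : ∀ u : Fin N, ((w u : ℕ) : ℤ) < N := fun u => by exact_mod_cast (w u).2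
    have ti := hτ i
    have tj := hτ j
    unfold sh at ti tj
    by_cases topi : a ≤ (τ i : ℕ) ∧ (τ i : ℕ) < a + l
    · exfalso
      rw [Fin' _ topi.1 topi.2] at hv
      split_ifs at ti with c1 c2
      · omega
      · obtain ⟨s1, s2⟩ := step c1.1 c1.2 (by omega)
        rw [if_pos ⟨by omega, s2⟩, if_neg (by omega)] at tj
        rw [Fin' _ (by omega) (by omega)] at hv
        omega
      · exact c1 ⟨by omega, small _ (by omega) (by omega)⟩
    rw [Fout _ topi] at hv
    by_cases topj : a ≤ (τ j : ℕ) ∧ (τ j : ℕ) < a + l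
    · rw [Fin' _ topj.1 topj.2] at hv
      have := wlt (τ i)
      omega
    rw [Fout _ topj] at hv
    refine ⟨⟨?_, by rw [Fin.lt_def]; omega⟩, topi⟩
    unfold GA
    rw [Fin.lt_def]
    split_ifs at ti tj with c1 c2 c3 c4 c5 c6 c7 c8
    · refine ⟨by omega, ?_⟩
      rw [ti, tj, ← hm]
      congr 1
      omega
    · omega
    · have : (i : ℕ) + k < j := by
        rcases gap with q | q
        · exact absurd ⟨by omega, (step c1.1 c1.2 q).2⟩ c3
        · exact q
      refine ⟨by omega, ?_⟩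
      rw [ti, tj, ← hm, show (j : ℕ) - i = j - (i + k) + k by omega, Nat.add_mod_right]
    · omega
    · omega
    · omega
    · refine ⟨by omega, ?_⟩
      rw [ti, tj, ← hm, show (j : ℕ) + k - i = j - i + k by omega, Nat.add_mod_right]
    · omega
    · exact ⟨by omega, by rw [ti, tj, hm]⟩
  have h1 : #I' ≤ #(I' \ B) + #B := card_le_card_sdiff_add_card
  have e1 : iv (GA k) (ρ * w * τ) = #I' := rfl
  have e2 : iv (GA k) w = #I := rfl
  simp only
  omega

theorem exists_touch {k l T : ℕ} (h1 : 1 ≤ l) (hN : l ≤ N) (w : Equiv.Perm (Fin N))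
    (h : 2 * N * T < iv (GA k) w * l) : ∃ a, a + l ≤ N ∧ T ≤ touch k l a w := by
  by_contra hc
  push Not at hc
  have hsub : (univ.filter fun p : Fin N × Fin N => GA k p.1 p.2 ∧ w p.2 < w p.1) ⊆
      (range (N / l + 1)).biUnion fun m => univ.filter fun p : Fin N × Fin N =>
        (GA k p.1 p.2 ∧ w p.2 < w p.1) ∧ min (l * m) (N - l) ≤ (p.1 : ℕ) ∧
          (p.1 : ℕ) < min (l * m) (N - l) + l := by
    intro p hp
    simp only [mem_filter, mem_univ, true_and, mem_biUnion, mem_range] at hp ⊢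
    have := p.1.2
    have e := Nat.div_add_mod (p.1 : ℕ) l
    have e' := Nat.mod_lt (p.1 : ℕ) (show 0 < l by omega)
    refine ⟨(p.1 : ℕ) / l, Nat.lt_succ_of_le (Nat.div_le_div_right (by omega)), hp, ?_, ?_⟩ <;>
      omega
  have h2 := (card_le_card hsub).trans card_biUnion_le
  have h3 : ∑ m ∈ range (N / l + 1), touch k l (min (l * m) (N - l)) w ≤ (N / l + 1) * T := by
    refine (sum_le_card_nsmul _ _ T fun m _ => (hc _ (by omega)).le).trans ?_
    simp
  have h4 : iv (GA k) w ≤ (N / l + 1) * T := h2.trans h3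
  have h5 : (N / l + 1) * l ≤ 2 * N := by
    have := Nat.div_mul_le_self N l
    nlinarith
  have h6 : iv (GA k) w * l ≤ (N / l + 1) * T * l := Nat.mul_le_mul_right _ h4
  have h7 : (N / l + 1) * l * T ≤ 2 * N * T := Nat.mul_le_mul_right _ h5
  nlinarith

theorem surgery {k l h x : ℕ} (hk : 3 ≤ k) (h1 : 1 ≤ l) (hl : l ≤ k) (hN : l ≤ N) (hx : h ≤ x)
    (H : 2 * N * (h + N / k + 3) ≤ (x - h) * l) :
    cum (GA (N := N) k) x ≤ (1 + N ^ (l + 1)) * cum (GA (N := N) k) (x - h) := by
  classical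
  set T := h + N / k + 3 with hT
  let W : ℕ → (Fin l → Fin N) → Finset (Equiv.Perm (Fin N)) := fun a g =>
    univ.filter fun w => ∃ ha : a + l ≤ N, (∀ s : Fin l, w ⟨a + s, by omega⟩ = g s) ∧
      iv (GA k) w ≤ x ∧ T ≤ touch k l a w
  have hW : ∀ a g, #(W a g) ≤ cum (GA (N := N) k) (x - h) := by
    intro a g
    by_cases ha : a + l ≤ N
    · obtain ⟨Φ, hΦ, hiv⟩ := key hk hl ha g
      refine card_le_card_of_injOn Φ ?_ hΦ.injOn
      intro w hw
      simp only [W, coe_filter, mem_univ, true_and, Set.mem_ofPred_eq] at hw ⊢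
      obtain ⟨_, q1, q2, q3⟩ := hw
      have := hiv w q1
      omega
    · have : W a g = ∅ := filter_eq_empty_iff.2 fun w _ hw => ha hw.1
      rw [this]
      simp
  have hsub : (univ.filter fun w : Equiv.Perm (Fin N) => iv (GA k) w ≤ x) ⊆
      (univ.filter fun w : Equiv.Perm (Fin N) => iv (GA k) w ≤ x - h) ∪
        (range N ×ˢ (univ : Finset (Fin l → Fin N))).biUnion fun z => W z.1 z.2 := by
    intro w hw
    simp only [mem_filter, mem_univ, true_and, mem_union, mem_biUnion] at hw ⊢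
    by_cases c : iv (GA k) w ≤ x - h
    · exact Or.inl c
    right
    have : (x - h) * l < iv (GA k) w * l := Nat.mul_lt_mul_of_pos_right (by omega) (by omega)
    obtain ⟨a, ha, hT'⟩ := exists_touch (T := T) h1 hN w (H.trans_lt this)
    refine ⟨(a, fun s => w ⟨a + s, by omega⟩), ?_, ?_⟩
    · simp only [mem_product, mem_range, mem_univ, and_true]
      omega
    · simp only [W, mem_filter, mem_univ, true_and]
      exact ⟨ha, fun _ => trivial, hw, hT'⟩
  have h2 := (card_le_card hsub).trans (card_union_le _ _)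
  have h3 := card_biUnion_le (s := range N ×ˢ (univ : Finset (Fin l → Fin N)))
    (t := fun z => W z.1 z.2)
  have h4 := sum_le_card_nsmul (range N ×ˢ (univ : Finset (Fin l → Fin N)))
    (fun z => #(W z.1 z.2)) _ fun z _ => hW z.1 z.2
  simp only [card_product, card_range, card_univ, Fintype.card_fun, Fintype.card_fin,
    smul_eq_mul] at h4
  have e1 : cum (GA (N := N) k) x = #(univ.filter fun w : Equiv.Perm (Fin N) =>
    iv (GA k) w ≤ x) := rfl
  have e2 : cum (GA (N := N) k) (x - h) = #(univ.filter fun w : Equiv.Perm (Fin N) =>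
    iv (GA k) w ≤ x - h) := rfl
  rw [add_mul, one_mul, pow_succ']
  omega

end Pool.Agent.Lib.MP_64bee1_co.TL
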